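import Mathlib

/-!
# A topological group without closed fans which is not a k-space

Let `I` be a set of cardinality `ℵ₂` and let `G` be the group of all `x : I → ℤ/2` which are constant
outside a countable set, a subgroup of the compact group `(ℤ/2)^I`. The closure of a countable subset
of `G` is compact, so a compact-finite family of subsets of `G` has only finitely many nonempty members
and is locally finite. The subgroup `Σ` of the elements of countable support is dense and proper, hence
not closed, but its intersection with every compact subset of `G` is closed: otherwise some compact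
subset of `G` would contain an element whose support and the complement of whose support are
both uncountable.
-/

set_option autoImplicit false

open Filter Topology Cardinal

namespace Pool.Agent.Results.MP_632b8e_gt.NoFanNotK

universe u v

/-- an indexed family of subsets of `X` is compact-finite if every compact subset of `X` meets only
finitely many of its members -/
def CompactFinite {X : Type u} [TopologicalSpace X] {ι : Type v} (F : ι → Set X) : Prop :=
  ∀ K : Set X, IsCompact K → {i | (F i ∩ K).Nonempty}.Finite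

/-- `X` contains no Cld-fan: every compact-finite family of closed subsets of `X` (with index set in
the universe `v`) is locally finite. -/
def NoCldFan (X : Type u) [TopologicalSpace X] : Prop :=
  ∀ (ι : Type v) (F : ι → Set X), (∀ i, IsClosed (F i)) → CompactFinite F → LocallyFinite F

/-- `X` is a k-space: a set `C` is closed as soon as `C ∩ K` is closed in `K` for all compact `K` -/
def KSpace (X : Type u) [TopologicalSpace X] : Prop :=
  ∀ C : Set X, (∀ K : Set X, IsCompact K → IsClosed ((Subtype.val : K → X) ⁻¹' C)) → IsClosed C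

/-- closing a set of cardinality at most `ℵ₁` under a countable-set-valued function of finite sets -/
theorem exists_closed {I : Type} (f : Finset I → Set I) (hf : ∀ E, (f E).Countable) (A : Set I)
    (hA : #A ≤ ℵ₁) : ∃ M : Set I, A ⊆ M ∧ #M ≤ ℵ₁ ∧ ∀ E : Finset I, (E : Set I) ⊆ M → f E ⊆ M := by
  classical
  have hω : ℵ₀ ≤ ℵ₁ := aleph0_le_aleph 1
  have hstep : ∀ S : Set I, #S ≤ ℵ₁ →
      #(S ∪ ⋃ E : Finset S, f (E.map (Function.Embedding.subtype _)) : Set I) ≤ ℵ₁ := by
    intro S hS
    refine (mk_union_le _ _).trans ?_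
    refine (add_le_add hS ?_).trans (add_eq_self hω).le
    refine (mk_iUnion_le _).trans ?_
    have h1 : #(Finset S) ≤ ℵ₁ := by
      rcases finite_or_infinite S with h | h
      · exact (lt_aleph0_of_finite (Finset S)).le.trans hω
      · rw [mk_finset_of_infinite]; exact hS
    have h2 : (⨆ E : Finset S, #(f (E.map (Function.Embedding.subtype _)))) ≤ ℵ₁ := by
      refine ciSup_le' fun E => ?_
      exact (Cardinal.mk_le_aleph0_iff.2 (hf _).to_subtype).trans hω
    exact (mul_le_mul' h1 h2).trans (mul_eq_self hω).le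
  let M : ℕ → {S : Set I // #S ≤ ℵ₁} := fun n => Nat.rec ⟨A, hA⟩ (fun _ S =>
    ⟨S.1 ∪ ⋃ E : Finset S.1, f (E.map (Function.Embedding.subtype _)), hstep S.1 S.2⟩) n
  have hM : ∀ n, (M (n + 1)).1 = (M n).1 ∪
      ⋃ E : Finset (M n).1, f (E.map (Function.Embedding.subtype _)) := fun n => rfl
  have hmono : Monotone fun n => (M n).1 := by
    refine monotone_nat_of_le_succ fun n => ?_
    rw [hM]
    exact Set.subset_union_left
  refine ⟨⋃ n, (M n).1, Set.subset_iUnion_of_subset 0 (le_refl _), ?_, ?_⟩
  · have h1 := mk_iUnion_le_sum_mk_lift (f := fun n => (M n).1)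
    rw [lift_uzero] at h1
    refine h1.trans ?_
    have h2 : (sum fun n => #(M n).1) ≤ sum fun _ : ℕ => ℵ₁ := sum_le_sum _ _ fun n => (M n).2
    refine h2.trans ?_
    rw [sum_const']
    exact (mul_le_mul' (mk_le_aleph0.trans hω) le_rfl).trans (mul_eq_self hω).le
  · intro E hE
    obtain ⟨n, hn⟩ : ∃ n, (E : Set I) ⊆ (M n).1 := by
      have h1 : ∀ i ∈ E, ∃ n, i ∈ (M n).1 := fun i hi => Set.mem_iUnion.1 (hE hi)
      choose! k hk using h1
      exact ⟨E.sup k, fun i hi => hmono (Finset.le_sup hi) (hk i hi)⟩
    refine Set.subset_iUnion_of_subset (n + 1) ?_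
    rw [hM]
    refine Set.subset_union_of_subset_right ?_ _
    have h2 : (E.subtype (· ∈ (M n).1)).map (Function.Embedding.subtype _) = E :=
      Finset.subtype_map_of_mem hn
    refine Set.subset_iUnion_of_subset (E.subtype (· ∈ (M n).1)) ?_
    rw [h2]

/-- the group of the functions `I → ℤ/2` which are constant outside a countable set -/
def grp (I : Type) : AddSubgroup (I → ZMod 2) where
  carrier := {x | ∃ c : ZMod 2, {i | x i ≠ c}.Countable}
  zero_mem' := ⟨0, by simp⟩
  add_mem' := by
    rintro x y ⟨c, hc⟩ ⟨d, hd⟩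
    refine ⟨c + d, (hc.union hd).mono fun i hi => ?_⟩
    by_contra h
    simp only [Set.mem_union, Set.mem_ofPred_eq, not_or, not_not] at h
    exact hi (by rw [Pi.add_apply, h.1, h.2])
  neg_mem' := by
    rintro x ⟨c, hc⟩
    refine ⟨-c, Set.Countable.mono (fun i hi => ?_) hc⟩
    have hi' : (-x) i ≠ -c := hi
    intro h
    apply hi'
    have h' : x i = c := h
    rw [Pi.neg_apply, h']

theorem exists_compact {I : Type} (x : ℕ → grp I) : ∃ K : Set (grp I), IsCompact K ∧ ∀ n, x n ∈ K := by
  have h1 : ∀ n, ∃ c : ZMod 2, {i | (x n : I → ZMod 2) i ≠ c}.Countable := fun n => (x n).2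
  choose c hc using h1
  let N : Set I := ⋃ n, {i | (x n : I → ZMod 2) i ≠ c n}
  have hN : N.Countable := Set.countable_iUnion hc
  let K0 : Set (I → ZMod 2) := {y | ∀ i j, i ∉ N → j ∉ N → y i = y j}
  have hK0 : IsClosed K0 := by
    have h2 : K0 = ⋂ i, ⋂ j, {y | i ∉ N → j ∉ N → y i = y j} := by
      ext y; simp only [K0, Set.mem_ofPred_eq, Set.mem_iInter]
    rw [h2]
    refine isClosed_iInter fun i => isClosed_iInter fun j => ?_
    by_cases hi : i ∈ N
    · simp [hi]
    · by_cases hj : j ∈ N
      · simp [hj]
      · simp only [hi, hj, not_false_eq_true, forall_const]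
        exact isClosed_eq (continuous_apply i) (continuous_apply j)
  have hsub : K0 ⊆ (grp I : Set (I → ZMod 2)) := by
    intro y hy
    by_cases hne : ∃ i, i ∉ N
    · obtain ⟨i, hi⟩ := hne
      refine ⟨y i, hN.mono fun j hj => ?_⟩
      by_contra hjN
      exact hj (hy j i hjN hi)
    · push Not at hne
      exact ⟨0, hN.mono fun j _ => hne j⟩
  refine ⟨Subtype.val ⁻¹' K0, ?_, ?_⟩
  · rw [Subtype.isCompact_iff]
    have h3 : Subtype.val '' (Subtype.val ⁻¹' K0 : Set (grp I)) = K0 := by
      ext y
      constructor
      · rintro ⟨g, hg, rfl⟩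
        exact hg
      · intro hy
        exact ⟨⟨y, hsub hy⟩, hy, rfl⟩
    rw [h3]
    exact hK0.isCompact
  · intro n i j hi hj
    have h4 : ∀ k, k ∉ N → (x n : I → ZMod 2) k = c n := by
      intro k hk
      by_contra hne
      exact hk (Set.mem_iUnion.2 ⟨n, hne⟩)
    rw [h4 i hi, h4 j hj]

theorem noCldFan (I : Type) : NoCldFan.{0, v} (grp I) := by
  intro ι F _ hF
  have hfin : {i | (F i).Nonempty}.Finite := by
    by_contra hinf
    have hinf' : {i | (F i).Nonempty}.Infinite := hinf
    let e := hinf'.natEmbedding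
    have h1 : ∀ n, (F (e n)).Nonempty := fun n => (e n).2
    choose x hx using h1
    obtain ⟨K, hK, hxK⟩ := exists_compact x
    have h2 := hF K hK
    have h3 : (Set.range fun n => (e n : ι)) ⊆ {i | (F i ∩ K).Nonempty} := by
      rintro _ ⟨n, rfl⟩
      exact ⟨x n, hx n, hxK n⟩
    have h4 : (Set.range fun n => (e n : ι)).Infinite :=
      Set.infinite_range_of_injective (Subtype.val_injective.comp e.injective)
    exact h4 (h2.subset h3)
  intro x
  refine ⟨Set.univ, univ_mem, hfin.subset fun i hi => ?_⟩
  exact hi.mono Set.inter_subset_left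

theorem not_kSpace (I : Type) (hI : #I = (ℵ_ 2)) : ¬ KSpace (grp I) := by
  classical
  intro hk
  have hω : ℵ₀ < ℵ₁ := aleph0_lt_aleph_one
  have hω2 : (ℵ₁ : Cardinal.{0}) < (ℵ_ 2) := aleph_lt_aleph.2 one_lt_two
  have hIunc : ¬ (Set.univ : Set I).Countable := by
    intro h
    have h1 : #I ≤ ℵ₀ := by
      rw [Cardinal.mk_le_aleph0_iff]
      exact Set.countable_univ_iff.1 h
    rw [hI] at h1
    exact absurd (hω.trans hω2) (not_lt.2 h1)
  let S : Set (grp I) := {g | {i | (g : I → ZMod 2) i ≠ 0}.Countable}
  have hS : IsClosed S := by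
    refine hk S fun K hK => ?_
    rw [← closure_subset_iff_isClosed]
    intro x hx
    by_contra hxS
    have hxS' : ¬ {i | ((x : grp I) : I → ZMod 2) i ≠ 0}.Countable := hxS
    obtain ⟨c, hc⟩ := (x : grp I).2
    have hc0 : c ≠ 0 := by
      rintro rfl
      exact hxS' hc
    -- approximations of `x`
    have happ : ∀ E : Finset I, ∃ y : grp I, y ∈ K ∧ y ∈ S ∧
        ∀ i ∈ E, (y : I → ZMod 2) i = ((x : grp I) : I → ZMod 2) i := by
      intro E
      have h1 : IsOpen {y : K | ∀ i ∈ E, ((y : grp I) : I → ZMod 2) i = ((x : grp I) : I → ZMod 2) i} := by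
        have h2 : {y : K | ∀ i ∈ E, ((y : grp I) : I → ZMod 2) i = ((x : grp I) : I → ZMod 2) i} =
            ⋂ i ∈ E, {y : K | ((y : grp I) : I → ZMod 2) i = ((x : grp I) : I → ZMod 2) i} := by
          ext y; simp
        rw [h2]
        refine isOpen_biInter_finset fun i _ => ?_
        have h3 : Continuous fun y : K => ((y : grp I) : I → ZMod 2) i :=
          (continuous_apply i).comp (continuous_subtype_val.comp continuous_subtype_val)
        exact (isOpen_discrete {((x : grp I) : I → ZMod 2) i}).preimage h3
      obtain ⟨y, hy1, hy2⟩ := mem_closure_iff.1 hx _ h1 (fun i _ => rfl)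
      exact ⟨y, y.2, hy2, hy1⟩
    choose y hyK hyS hyE using happ
    obtain ⟨A, hA⟩ : ∃ A : Set I, #A = ℵ₁ := le_mk_iff_exists_set.1 (by rw [hI]; exact hω2.le)
    obtain ⟨M, hAM, hM, hMc⟩ := exists_closed
      (fun E => {i | ((y E : grp I) : I → ZMod 2) i ≠ 0}) (fun E => hyS E) A hA.le
    -- a cluster point
    let φ : Finset M → grp I := fun E => y (E.map (Function.Embedding.subtype _))
    have hφ : Filter.map φ atTop ≤ 𝓟 K := by
      rw [le_principal_iff]
      exact Filter.mem_map.2 (Filter.univ_mem' fun E => hyK _)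
    obtain ⟨z, -, hz⟩ := hK hφ
    have hz1 : ∀ i ∈ M, (z : I → ZMod 2) i = ((x : grp I) : I → ZMod 2) i := by
      intro i hi
      have h1 : IsClosed {g : grp I | (g : I → ZMod 2) i = ((x : grp I) : I → ZMod 2) i} :=
        isClosed_eq ((continuous_apply i).comp continuous_subtype_val) continuous_const
      have h2 : Filter.map φ atTop ≤ 𝓟 {g : grp I | (g : I → ZMod 2) i = ((x : grp I) : I → ZMod 2) i} := by
        rw [le_principal_iff, Filter.mem_map]
        filter_upwards [eventually_ge_atTop ({⟨i, hi⟩} : Finset M)] with E hE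
        refine hyE _ i ?_
        rw [Finset.mem_map]
        exact ⟨⟨i, hi⟩, hE (Finset.mem_singleton_self _), rfl⟩
      have h3 := hz.mono h2
      rw [← mem_closure_iff_clusterPt, h1.closure_eq] at h3
      exact h3
    have hz0 : ∀ i, i ∉ M → (z : I → ZMod 2) i = 0 := by
      intro i hi
      have h1 : IsClosed {g : grp I | (g : I → ZMod 2) i = 0} :=
        isClosed_eq ((continuous_apply i).comp continuous_subtype_val) continuous_const
      have h2 : Filter.map φ atTop ≤ 𝓟 {g : grp I | (g : I → ZMod 2) i = 0} := by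
        rw [le_principal_iff, Filter.mem_map]
        refine Filter.univ_mem' fun E => ?_
        by_contra hne
        refine hi (hMc (E.map (Function.Embedding.subtype _)) ?_ hne)
        intro j hj
        rw [Finset.mem_coe, Finset.mem_map] at hj
        obtain ⟨j', _, rfl⟩ := hj
        exact j'.2
      have h3 := hz.mono h2
      rw [← mem_closure_iff_clusterPt, h1.closure_eq] at h3
      exact h3
    obtain ⟨d, hd⟩ := z.2
    have hMunc : ¬ M.Countable := by
      intro h
      have h1 : #A ≤ ℵ₀ := by
        rw [Cardinal.mk_le_aleph0_iff]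
        exact (h.mono hAM).to_subtype
      rw [hA] at h1
      exact absurd hω (not_lt.2 h1)
    have hMcunc : ¬ (Mᶜ).Countable := by
      intro h
      have h1 : #(Mᶜ : Set I) ≤ ℵ₀ := by
        rw [Cardinal.mk_le_aleph0_iff]
        exact h.to_subtype
      have h2 : #M + #(Mᶜ : Set I) = #I := mk_sum_compl M
      have h3 : #I ≤ ℵ₁ := by
        rw [← h2]
        exact (add_le_add hM (h1.trans hω.le)).trans (add_eq_self hω.le).le
      rw [hI] at h3
      exact absurd hω2 (not_lt.2 h3)
    by_cases hd0 : d = 0
    · subst hd0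
      apply hMunc
      refine (hc.union hd).mono fun i hi => ?_
      by_cases h : ((x : grp I) : I → ZMod 2) i = c
      · right
        change (z : I → ZMod 2) i ≠ 0
        rw [hz1 i hi, h]
        exact hc0
      · left; exact h
    · apply hMcunc
      refine hd.mono fun i hi => ?_
      change (z : I → ZMod 2) i ≠ d
      rw [hz0 i hi]
      exact Ne.symm hd0
  -- the constant function one is in the closure of `S`
  let one : grp I := ⟨fun _ => 1, ⟨1, by simp⟩⟩
  have h1 : one ∈ closure S := by
    rw [mem_closure_iff_nhds]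
    intro U hU
    obtain ⟨W, hW, hWU⟩ := mem_nhds_induced Subtype.val one U |>.1 hU
    rw [nhds_pi, Filter.mem_pi] at hW
    obtain ⟨E, hE, V, hV, hVW⟩ := hW
    have hfin : {i | (fun i => if i ∈ E then (1 : ZMod 2) else 0) i ≠ 0}.Countable := by
      refine hE.countable.mono fun i hi => ?_
      by_contra h
      exact hi (if_neg h)
    refine ⟨⟨fun i => if i ∈ E then 1 else 0, ⟨0, hfin⟩⟩, hWU (hVW fun i hi => ?_), hfin⟩
    have h2 : (if i ∈ E then (1 : ZMod 2) else 0) = 1 := if_pos hi
    change (if i ∈ E then (1 : ZMod 2) else 0) ∈ V i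
    rw [h2]
    exact mem_of_mem_nhds (hV i)
  rw [hS.closure_eq] at h1
  refine hIunc ((show {i : I | (fun _ => (1 : ZMod 2)) i ≠ 0}.Countable from h1).mono fun i _ => ?_)
  exact one_ne_zero

/-- **Negative answer to Q1.** There is a Hausdorff abelian topological group which contains no
Cld-fan (for index sets in an arbitrary universe) and which is not a k-space. -/
theorem result : ∃ (G : Type) (_ : AddCommGroup G) (_ : TopologicalSpace G)
    (_ : IsTopologicalAddGroup G) (_ : T2Space G), NoCldFan.{0, v} G ∧ ¬ KSpace G := by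
  have hI : #((ℵ_ 2) : Cardinal.{0}).out = (ℵ_ 2) := mk_out _
  exact ⟨grp ((ℵ_ 2) : Cardinal.{0}).out, inferInstance, inferInstance, inferInstance, inferInstance,
    noCldFan _, not_kSpace _ hI⟩

end Pool.Agent.Results.MP_632b8e_gt.NoFanNotK
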